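import Mathlib
import Pool.Agent.R204.DSQ.Stm

namespace Pool.Agent.R238.DSQ

open Finset Pool.Agent.R204.DSQ

theorem s_eq (θ : ℝ) (n : ℕ) : S θ n =
    ∑ u ∈ Icc 1 n, ∑ v ∈ Icc 1 (n / u), e (v * (u * θ)) := by
  unfold S
  have h1 : ∀ k ∈ Icc 1 n, (dv k : ℂ) * e (k * θ) =
      ∑ u ∈ Icc 1 n, if u ∣ k then e (k * θ) else 0 := by
    intro k hk
    have hk' := mem_Icc.1 hk
    rw [← sum_filter]
    have h2 : (Icc 1 n).filter (fun u => u ∣ k) = Nat.divisors k := by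
      ext u
      simp only [mem_filter, mem_Icc, Nat.mem_divisors]
      constructor
      · rintro ⟨_, h⟩; exact ⟨h, by omega⟩
      · rintro ⟨h, h0⟩
        exact ⟨⟨Nat.pos_of_dvd_of_pos h (by omega), (Nat.le_of_dvd (by omega) h).trans hk'.2⟩, h⟩
    rw [h2, sum_const, nsmul_eq_mul]
    unfold dv
    push_cast
    rfl
  rw [sum_congr rfl h1, sum_comm]
  refine sum_congr rfl fun u hu => ?_
  have hu' := mem_Icc.1 hu
  rw [← sum_filter]
  have h3 : (Icc 1 n).filter (fun k => u ∣ k) = (Icc 1 (n / u)).image (fun v => v * u) := by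
    ext k
    simp only [mem_filter, mem_Icc, mem_image]
    constructor
    · rintro ⟨⟨h1, h2⟩, v, rfl⟩
      refine ⟨v, ⟨?_, ?_⟩, mul_comm _ _⟩
      · exact Nat.pos_of_mul_pos_left h1 |> fun _ => Nat.pos_of_ne_zero (by rintro rfl; simp at h1)
      · rw [Nat.le_div_iff_mul_le (by omega), mul_comm]; exact h2
    · rintro ⟨v, ⟨h1, h2⟩, rfl⟩
      rw [Nat.le_div_iff_mul_le (by omega)] at h2
      exact ⟨⟨Nat.mul_pos h1 hu'.1, h2⟩, Dvd.intro_left v rfl⟩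
  rw [h3, sum_image]
  · refine sum_congr rfl fun v _ => ?_
    congr 1
    push_cast
    ring
  · intro x _ y _ hxy
    exact Nat.eq_of_mul_eq_mul_right (by omega) hxy

theorem part1 (θ : ℝ) (n s : ℕ) (hs : s ≤ n) :
    ∑ u ∈ Icc 1 s, ∑ v ∈ Icc 1 (n / u), e (v * (u * θ)) =
      ∑ u ∈ Icc 1 n, ∑ v ∈ Icc 1 n, if u * v ≤ n ∧ u ≤ s then e (v * (u * θ)) else 0 := by
  have h1 : (Icc 1 n).filter (fun u => u ≤ s) = Icc 1 s := by
    ext u; simp only [mem_filter, mem_Icc]; omega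
  rw [← h1, sum_filter]
  refine sum_congr rfl fun u hu => ?_
  have hu' := mem_Icc.1 hu
  by_cases hus : u ≤ s
  · simp only [hus, and_true, if_true]
    rw [← sum_filter]
    refine sum_congr ?_ fun _ _ => rfl
    ext v
    simp only [mem_filter, mem_Icc]
    rw [Nat.le_div_iff_mul_le (by omega), mul_comm v u]
    constructor
    · rintro ⟨h1, h2⟩
      exact ⟨⟨h1, (Nat.le_mul_of_pos_left v (by omega)).trans h2⟩, h2⟩
    · rintro ⟨⟨h1, _⟩, h2⟩; exact ⟨h1, h2⟩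
  · simp [hus]

theorem hyp_st : HypSt := by
  intro θ n
  set s := Nat.sqrt n with hs
  have hsn : s ≤ n := Nat.sqrt_le_self n
  have hs2 : s * s ≤ n := Nat.sqrt_le n
  have hs3 : n < (s + 1) * (s + 1) := Nat.lt_succ_sqrt n
  have hsym : ∀ u v : ℕ, e (v * (u * θ)) = e (u * (v * θ)) := by
    intro u v; congr 1; ring
  have h0 : S θ n = ∑ u ∈ Icc 1 n, ∑ v ∈ Icc 1 n, if u * v ≤ n ∧ u ≤ n then e (v * (u * θ)) else 0 := by
    rw [s_eq, part1 θ n n le_rfl]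
  have h1 := part1 θ n s hsn
  have h2 : ∑ u ∈ Icc 1 s, ∑ v ∈ Icc 1 (n / u), e (v * (u * θ)) =
      ∑ u ∈ Icc 1 n, ∑ v ∈ Icc 1 n, if u * v ≤ n ∧ v ≤ s then e (v * (u * θ)) else 0 := by
    rw [h1, sum_comm]
    refine sum_congr rfl fun u _ => sum_congr rfl fun v _ => ?_
    rw [hsym v u, mul_comm v u]
  have h3 : ∑ u ∈ Icc 1 s, ∑ v ∈ Icc 1 s, e (v * (u * θ)) =
      ∑ u ∈ Icc 1 n, ∑ v ∈ Icc 1 n, if u ≤ s ∧ v ≤ s then e (v * (u * θ)) else 0 := by
    have h4 : (Icc 1 n).filter (fun u => u ≤ s) = Icc 1 s := by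
      ext u; simp only [mem_filter, mem_Icc]; omega
    rw [← h4, sum_filter]
    refine sum_congr rfl fun u _ => ?_
    by_cases hus : u ≤ s
    · simp only [hus, true_and, if_true]
      rw [sum_filter]
    · simp [hus]
  have h5 : (2 : ℂ) * ∑ u ∈ Icc 1 s, ∑ v ∈ Icc 1 (n / u), e (v * (u * θ)) =
      (∑ u ∈ Icc 1 s, ∑ v ∈ Icc 1 (n / u), e (v * (u * θ))) +
      ∑ u ∈ Icc 1 s, ∑ v ∈ Icc 1 (n / u), e (v * (u * θ)) := by ring
  rw [h5]
  nth_rewrite 1 [h1]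
  rw [h2, h3, h0, ← sum_add_distrib, ← sum_sub_distrib]
  refine sum_congr rfl fun u hu => ?_
  rw [← sum_add_distrib, ← sum_sub_distrib]
  refine sum_congr rfl fun v hv => ?_
  have hu' := mem_Icc.1 hu
  have hv' := mem_Icc.1 hv
  by_cases hus : u ≤ s <;> by_cases hvs : v ≤ s
  · have : u * v ≤ n := (Nat.mul_le_mul hus hvs).trans hs2
    simp [hus, hvs, this, hu'.2]
  · by_cases huv : u * v ≤ n <;> simp [hus, hvs, huv, hu'.2]
  · by_cases huv : u * v ≤ n <;> simp [hus, hvs, huv, hu'.2]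
  · have : ¬ u * v ≤ n := by
      have : (s + 1) * (s + 1) ≤ u * v := Nat.mul_le_mul (by omega) (by omega)
      omega
    simp [hus, hvs, this]

end Pool.Agent.R238.DSQ
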